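import Pool.Agent.Lib.MP_20b407_ag.Sc.Cst

/-! Isomorphism over a basic open set, and smoothness from charts. -/

namespace Pool.Agent.Lib.MP_20b407_ag.Sc

open CategoryTheory AlgebraicGeometry
open Pool.Agent.Lib.MP_cd184e_ag.B (rres rres_rres)

theorem iso_bij {R S R' S' : Type} [CommRing R] [CommRing S] [CommRing R'] [CommRing S']
    [Algebra R R'] [Algebra S S'] (φ : R →+* S) (r : R) [IsLocalization.Away r R']
    [IsLocalization.Away (φ r) S'] (ψ : R' →+* S')
    (h : ∀ x, ψ (algebraMap R R' x) = algebraMap S S' (φ x)) (inj : Function.Injective φ)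
    (surj : ∀ s : S, ∃ (n : ℕ) (b : R), φ r ^ n * s = φ b) : Function.Bijective ψ := by
  have u : IsUnit (algebraMap R R' r) := IsLocalization.Away.algebraMap_isUnit r
  constructor
  · rw [injective_iff_map_eq_zero]
    intro x hx
    obtain ⟨n, b, hb⟩ := IsLocalization.Away.surj (S := R') r x
    have e : algebraMap S S' (φ b) = 0 := by rw [← h, ← hb, map_mul, hx, zero_mul]
    obtain ⟨⟨_, k, rfl⟩, hk⟩ :=
      (IsLocalization.map_eq_zero_iff (Submonoid.powers (φ r)) S' _).1 e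
    have e2 : r ^ k * b = 0 := inj (by rw [map_mul, map_pow, map_zero]; exact hk)
    have e3 : x * algebraMap R R' r ^ (n + k) = 0 := by
      rw [pow_add, ← mul_assoc, hb, ← map_pow, ← map_mul, mul_comm, e2, map_zero]
    exact (u.pow _).mul_left_eq_zero.1 e3
  · intro y
    obtain ⟨n, s, hs⟩ := IsLocalization.Away.surj (S := S') (φ r) y
    obtain ⟨k, b, hb⟩ := surj s
    obtain ⟨w, hw⟩ := (u.pow (n + k)).exists_right_inv
    refine ⟨algebraMap R R' b * w, ?_⟩
    have e : algebraMap S S' (φ r) ^ (n + k) * ψ w = 1 := by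
      rw [← h, ← map_pow, ← map_mul, hw, map_one]
    rw [map_mul, h, ← hb, map_mul, map_pow, ← hs]
    calc _ = y * (algebraMap S S' (φ r) ^ (n + k) * ψ w) := by ring
      _ = y := by rw [e, mul_one]

set_option backward.isDefEq.respectTransparency false in
theorem iso_of_app {X Y : Scheme.{0}} (f : X ⟶ Y) {U : Y.Opens} (hU : IsAffineOpen U)
    (h : IsAffineOpen (f ⁻¹ᵁ U)) (i : IsIso (f.app U)) : IsIso (f ∣_ U) := by
  have : IsAffine U := hU
  refine ((HasAffineProperty.iff_of_isAffine (P := .isomorphisms _)).trans <|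
    (and_iff_right h).trans ?_ : _ ↔ IsIso (f.app U)).2 i
  rw [Scheme.Hom.app_eq_appLE]
  simp only [morphismRestrict_app', TopologicalSpace.Opens.map_top]
  congr! <;> simp [Scheme.Opens.toScheme_presheaf_obj]

theorem isIso_dOpen {A : Type} [CommRing A] {Y : Scheme.{0}} (π : Y ⟶ Spec (.of A)) {V : Y.Opens}
    (hV : IsAffineOpen V) (a : A) (sub : π ⁻¹ᵁ dOpen a ≤ V) (inj : Function.Injective (cst π V))
    (surj : ∀ s : Γ(Y, V), ∃ (n : ℕ) (b : A), cst π V a ^ n * s = cst π V b) :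
    IsIso (π ∣_ dOpen a) := by
  have e1 : π ⁻¹ᵁ dOpen a = Y.basicOpen (cst π V a) := by
    rw [basicOpen_cst, inf_eq_right.2 sub]
  have e2 : dOpen a = (Spec (.of A)).basicOpen ((Scheme.ΓSpecIso (.of A)).inv a) :=
    (basicOpen_eq_of_affine (R := .of A) a).symm
  have a1 : IsAffineOpen (dOpen a) := e2 ▸ (isAffineOpen_top _).basicOpen _
  have a2 : IsAffineOpen (π ⁻¹ᵁ dOpen a) := e1 ▸ hV.basicOpen _
  refine iso_of_app π a1 a2 ((ConcreteCategory.isIso_iff_bijective _).2 ?_)
  let E := (Scheme.ΓSpecIso (.of A)).commRingCatIsoToRingEquiv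
  let φ : Γ(Spec (.of A), ⊤) →+* Γ(Y, V) := (cst π V).comp E.toRingHom
  have hφ : ∀ b : A, φ ((Scheme.ΓSpecIso (.of A)).inv b) = cst π V b := fun b =>
    congrArg (cst π V) (E.apply_symm_apply b)
  let := ((Spec (.of A)).presheaf.map (homOfLE (le_top : dOpen a ≤ ⊤)).op).hom.toAlgebra
  let := (Y.presheaf.map (homOfLE sub).op).hom.toAlgebra
  have := (isAffineOpen_top (Spec (.of A))).isLocalization_of_eq_basicOpen _ (homOfLE le_top) e2
  have := hV.isLocalization_of_eq_basicOpen (φ ((Scheme.ΓSpecIso (.of A)).inv a)) (homOfLE sub)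
    (by rw [hφ]; exact e1)
  refine iso_bij φ ((Scheme.ΓSpecIso (.of A)).inv a) (π.app (dOpen a)).hom (fun x => ?_)
    (inj.comp E.injective) fun s => ?_
  · obtain ⟨c, rfl⟩ := E.symm.surjective x
    refine Eq.trans ?_ (congrArg (rres sub) (hφ c)).symm
    rw [rres_cst]
    exact congrArg (fun t => t.hom ((Scheme.ΓSpecIso (.of A)).inv c))
      (π.naturality (homOfLE (le_top : dOpen a ≤ ⊤)).op)
  · obtain ⟨n, b, hb⟩ := surj s
    exact ⟨n, (Scheme.ΓSpecIso (.of A)).inv b, by rw [hφ a, hφ b]; exact hb⟩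

theorem smooth_of_charts {A ι : Type} [CommRing A] {Y : Scheme.{0}} (g : Y ⟶ Spec (.of A))
    {U : ι → Y.Opens} (cover : iSup U = ⊤) (aff : ∀ i, IsAffineOpen (U i))
    (h : ∀ i, (cst g (U i)).Smooth) : Smooth g := by
  refine HasRingHomProperty.of_iSup_eq_top (P := @Smooth) (fun i => ⟨U i, aff i⟩) cover fun i => ?_
  have e : (g.appLE ⊤ (U i) le_top).hom =
      (cst g (U i)).comp (Scheme.ΓSpecIso (.of A)).hom.hom := by
    ext a
    obtain ⟨c, rfl⟩ := (Scheme.ΓSpecIso (.of A)).commRingCatIsoToRingEquiv.symm.surjective a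
    exact (congrArg (cst g (U i))
      ((Scheme.ΓSpecIso (.of A)).commRingCatIsoToRingEquiv.apply_symm_apply c)).symm
  rw [e]
  exact (RingHom.Smooth.of_bijective
    (Scheme.ΓSpecIso (.of A)).commRingCatIsoToRingEquiv.bijective).comp (h i)

theorem cst_comp {A B : Type} [CommRing A] [CommRing B] {Y : Scheme.{0}} (π : Y ⟶ Spec (.of A))
    (f : B →+* A) (V : Y.Opens) :
    cst (π ≫ Spec.map (CommRingCat.ofHom f)) V = (cst π V).comp f := by
  ext b
  have := congrArg (fun t => t.hom b) (Scheme.ΓSpecIso_inv_naturality (CommRingCat.ofHom f))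
  exact congrArg (fun t => rres (le_top : V ≤ ⊤) (π.appTop.hom t)) this.symm

end Pool.Agent.Lib.MP_20b407_ag.Sc
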