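import Pool.Agent.Lib.MP_20b407_ag.Sc.Cst

/-! The direct image of the quotient of the constant sheaf. -/

namespace Pool.Agent.Lib.MP_20b407_ag.Sc

open CategoryTheory AlgebraicGeometry
open Pool.Agent.Lib.MP_dd9c4c_nt.Sc (embAdd)
open Pool.Agent.Lib.MP_dd9c4c_nt.Sc (val val_res val_ne reg_add reg_basic surj_cls sapp s_ext
  gen_of_mem)

section

variable {A L ι : Type} [CommRing A] [Field L] {Y : Scheme.{0}} [IsIntegral Y]
  (π : Y ⟶ Spec (.of A)) (φ : Y.functionField ≃+* L) {U : ι → Y.Opens}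

theorem loc_val (a : A) (V : Y.Opens) (h : genericPoint Y ∈ V) :
    val φ V h (cst π V a) = val φ ⊤ trivial (cst π ⊤ a) := by
  rw [← rres_cst π le_top a, val_res]

theorem loc_c1 [Finite ι] (aff : ∀ i, IsAffineOpen (U i))
    (aff2 : ∀ i j, IsAffineOpen (U i ⊓ U j)) (gen : ∀ i, genericPoint Y ∈ U i)
    (h1 : (embAdd φ).C1 U) {a : A} (ha : genericPoint Y ∈ π ⁻¹ᵁ dOpen a) :
    (embAdd φ).C1 fun i => U i ⊓ π ⁻¹ᵁ dOpen a := by
  intro c hc hcc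
  have g0 : val φ ⊤ trivial (cst π ⊤ a) ≠ 0 :=
    val_ne φ (s := cst π ⊤ a) (by rw [basicOpen_cst]; exact ⟨trivial, ha⟩)
  choose n hn using fun p : ι × ι => (reg_basic φ (aff2 p.1 p.2) ⟨gen _, gen _⟩
    (t := cst π _ a) (W := U p.1 ⊓ π ⁻¹ᵁ dOpen a ⊓ (U p.2 ⊓ π ⁻¹ᵁ dOpen a))
    (by rw [basicOpen_cst, inf_inf_inf_comm, inf_idem])
    ⟨⟨gen _, ha⟩, gen _, ha⟩).1 (hc p.1 p.2)
  obtain ⟨N, hN⟩ := (Set.finite_range n).bddAbove
  obtain ⟨b, hb, e⟩ := h1 (fun i j => val φ ⊤ trivial (cst π ⊤ a) ^ N * c i j) (fun i j => by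
    obtain ⟨k, rfl⟩ := Nat.exists_eq_add_of_le' (hN ⟨(i, j), rfl⟩)
    rw [reg_add φ (U := U i ⊓ U j) ⟨gen i, gen j⟩, ← loc_val π φ a (U i ⊓ U j) ⟨gen i, gen j⟩,
      pow_add, mul_assoc]
    exact mul_mem (pow_mem (RingHom.mem_range_self _ _) _) (hn (i, j))) fun i j k => by
      rw [← mul_sub, ← mul_add, hcc, mul_zero]
  refine ⟨fun i => (val φ ⊤ trivial (cst π ⊤ a) ^ N)⁻¹ * b i, fun i => (reg_basic φ (aff i) (gen i)
    (basicOpen_cst π _ a).symm ⟨gen i, ha⟩).2 ⟨N, ?_⟩, fun i j => ?_⟩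
  · rw [loc_val, mul_inv_cancel_left₀ (pow_ne_zero N g0)]
    exact (reg_add φ (gen i)).1 (hb i)
  · rw [← mul_sub, ← e, inv_mul_cancel_left₀ (pow_ne_zero N g0)]

theorem loc_surj [Finite ι] [Nonempty ι] (cover : iSup U = ⊤) (aff : ∀ i, IsAffineOpen (U i))
    (aff2 : ∀ i j, IsAffineOpen (U i ⊓ U j)) (gen : ∀ i, genericPoint Y ∈ U i)
    (h1 : (embAdd φ).C1 U) (a : A) :
    Function.Surjective (sapp (embAdd φ).S.g (π ⁻¹ᵁ dOpen a)) := by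
  by_cases ha : genericPoint Y ∈ π ⁻¹ᵁ dOpen a
  · refine (embAdd φ).surj_g fun q => (embAdd φ).glue1 (fun i => inf_le_right) ?_
      (fun i => ⟨gen i, ha⟩) (loc_c1 π φ aff aff2 gen h1 ha) q fun i =>
        surj_cls φ (U := U i ⊓ π ⁻¹ᵁ dOpen a)
          (basicOpen_cst π (U i) a ▸ (aff i).basicOpen _) ⟨gen i, ha⟩ _
    rw [← iSup_inf_eq, cover, top_inf_eq]
  · exact fun q => ⟨0, s_ext _ (Empty.elim : Empty → Y.Opens) (fun x => x.elim)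
      (fun x hx => absurd (gen_of_mem hx) ha) _ _ fun x => x.elim⟩

end

theorem epi_push {A L ι : Type} [CommRing A] [Field L] [Finite ι] [Nonempty ι] {Y : Scheme.{0}}
    [IsIntegral Y] (π : Y ⟶ Spec (.of A)) (φ : Y.functionField ≃+* L) {U : ι → Y.Opens}
    (cover : iSup U = ⊤) (aff : ∀ i, IsAffineOpen (U i)) (aff2 : ∀ i j, IsAffineOpen (U i ⊓ U j))
    (gen : ∀ i, genericPoint Y ∈ U i) (h1 : (embAdd φ).C1 U) :
    Epi ((TopCat.Sheaf.pushforward AddCommGrpCat.{0} π.base).map (embAdd φ).S.g) := by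
  refine (TopCat.Sheaf.isLocallySurjective_iff_epi _).1
    ((TopCat.Presheaf.isLocallySurjective_iff _).2 fun O t x hx => ?_)
  obtain ⟨_, ⟨a, rfl⟩, h, le⟩ :=
    PrimeSpectrum.isTopologicalBasis_basic_opens.exists_subset_of_mem_open hx O.isOpen
  exact ⟨dOpen a, le, loc_surj π φ cover aff aff2 gen h1 a _, h⟩

end Pool.Agent.Lib.MP_20b407_ag.Sc
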