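import Mathlib

/-! A criterion for the vanishing of the first right derived functor. -/

namespace Pool.Agent.Lib.MP_20b407_ag.Sc

open CategoryTheory Limits

theorem rder_epi {C D : Type*} [Category C] [Category D] [Abelian C] [Abelian D] (F : C ⥤ D)
    [F.Additive] {S : ShortComplex C} (hS : S.ShortExact) (hI : Injective S.X₂)
    (he : Epi (F.map S.g)) {J Z : C} [Injective J] {i : S.X₁ ⟶ J} {e : J ⟶ Z} {w : i ≫ e = 0}
    (hi : Mono i) [Epi e] (hT : (ShortComplex.mk i e w).Exact) : Epi (F.map e) := by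
  have := hS.mono_f
  have := hS.epi_g
  obtain ⟨u, hu⟩ := Injective.factors S.f i
  obtain ⟨v, hv⟩ := Injective.factors i S.f
  obtain ⟨ub, h1⟩ := hT.desc' (u ≫ S.g) (by rw [← Category.assoc, hu, S.zero])
  obtain ⟨vb, h2⟩ := hS.exact.desc' (v ≫ e) (by rw [← Category.assoc, hv, w])
  obtain ⟨h, h3⟩ := hT.desc' (𝟙 J - u ≫ v) (by
    rw [Preadditive.comp_sub, ← Category.assoc, hu, hv, Category.comp_id, sub_self])
  dsimp only at ub h h1 h3
  have k : ub ≫ vb + h ≫ e = 𝟙 Z := by
    rw [← cancel_epi e, Preadditive.comp_add, ← Category.assoc, ← Category.assoc, h1, h3,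
      Category.assoc, h2, Preadditive.sub_comp, Category.id_comp, Category.comp_id,
      Category.assoc, add_sub_cancel]
  refine Preadditive.epi_of_cancel_zero _ fun a ha => ?_
  have k2 : F.map vb ≫ a = 0 := by
    rw [← cancel_epi (F.map S.g), ← F.map_comp_assoc, h2, F.map_comp_assoc, ha, comp_zero,
      comp_zero]
  rw [← Category.id_comp a, ← F.map_id, ← k, F.map_add, Preadditive.add_comp, F.map_comp,
    F.map_comp, Category.assoc, Category.assoc, k2, ha, comp_zero, comp_zero, add_zero]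

theorem isZero_rightDerived_one {C D : Type*} [Category C] [Category D] [Abelian C] [Abelian D]
    [HasInjectiveResolutions C] (F : C ⥤ D) [F.Additive] [PreservesFiniteLimits F]
    {S : ShortComplex C} (hS : S.ShortExact) (hI : Injective S.X₂) (he : Epi (F.map S.g)) :
    IsZero ((F.rightDerived 1).obj S.X₁) := by
  obtain ⟨J⟩ := HasInjectiveResolution.out (Z := S.X₁)
  have e1 : Epi (kernel.lift (J.cocomplex.d 1 2) (J.cocomplex.d 0 1) (J.complex_d_comp 0)) :=
    (ShortComplex.exact_iff_epi_kernel_lift _).1 (J.exact_succ 0)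
  have w : J.ι.f 0 ≫ kernel.lift (J.cocomplex.d 1 2) (J.cocomplex.d 0 1) (J.complex_d_comp 0) =
      0 := by
    rw [← cancel_mono (kernel.ι _), Category.assoc, kernel.lift_ι, zero_comp,
      J.ι_f_zero_comp_complex_d]
  have hT : (ShortComplex.mk _ _ w).Exact := by
    let φ : ShortComplex.mk _ _ w ⟶ ShortComplex.mk _ _ J.ι_f_zero_comp_complex_d :=
      { τ₁ := 𝟙 _, τ₂ := 𝟙 _, τ₃ := kernel.ι _ }
    exact (ShortComplex.exact_iff_of_epi_of_isIso_of_mono φ).2 J.exact₀
  have e2 := rder_epi F hS hI he (i := J.ι.f 0) (inferInstanceAs (Mono (J.ι.f 0))) hT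
  refine IsZero.of_iso ?_ (J.isoRightDerivedObj F 1)
  refine (HomologicalComplex.exactAt_iff_isZero_homology _ _).1
    ((HomologicalComplex.exactAt_iff' _ 0 1 2 (by simp) (by simp)).2
      ((ShortComplex.exact_iff_epi_kernel_lift _).2 ?_))
  have e3 := epi_comp' e2 (inferInstance : Epi (kernelComparison (J.cocomplex.d 1 2) F))
  rw [map_lift_kernelComparison] at e3
  exact e3

end Pool.Agent.Lib.MP_20b407_ag.Sc
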