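import Pool.Agent.Lib.MP_20b407_ag.Sc.ProjAt
import Pool.Agent.Lib.MP_20b407_ag.Sc.RDer
import Pool.Agent.Lib.MP_20b407_ag.Sc.Loc
import Pool.Agent.Lib.MP_20b407_ag.Sc.Iso

/-! From the charts of a blow-up to a resolution with vanishing first direct image. -/

namespace Pool.Agent.Lib.MP_20b407_ag.Sc

open CategoryTheory AlgebraicGeometry Opposite TopologicalSpace HomogeneousLocalization
open Pool.Agent.Lib.MP_cd184e_ag.B (rres rres_rres rres_self)
open Pool.Agent.Lib.MP_dd9c4c_nt.Sc (val val_res val_inj gen_mem' embAdd reg_add injective_gsh)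

section Field

variable {L : Type} [Field L] {Y : Scheme.{0}} [IsIntegral Y]

theorem eq_val_of_le (φ : Y.functionField ≃+* L) {U V : Y.Opens} (i : V ≤ U)
    (hU : IsAffineOpen U) (h : genericPoint Y ∈ V) (e : Γ(Y, V) →+* L)
    (he : ∀ a, e (rres i a) = val φ U (i h) a) (s : Γ(Y, V)) : e s = val φ V h s := by
  have : Nonempty U := ⟨⟨_, i h⟩⟩
  have := functionField_isFractionRing_of_isAffineOpen Y U hU
  obtain ⟨p, q, hq, e1⟩ := IsFractionRing.div_surjective (A := Γ(Y, U))
    (φ.symm (val φ V h s))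
  have e2 : val φ U (i h) p / val φ U (i h) q = val φ V h s := by
    rw [← φ.apply_symm_apply (val φ V h s), ← e1, map_div₀]
    rfl
  have h0 : val φ U (i h) q ≠ 0 := fun z =>
    nonZeroDivisors.ne_zero hq (val_inj φ U (i h) (z.trans (map_zero _).symm))
  rw [div_eq_iff h0] at e2
  have e3 : s * rres i q = rres i p := val_inj φ V h (by rw [map_mul, val_res, val_res, e2])
  have e4 := congrArg e e3
  rw [map_mul, he, he, e2] at e4
  exact mul_right_cancel₀ h0 e4

theorem exists_equiv_val {U : Y.Opens} (hU : IsAffineOpen U) (h : genericPoint Y ∈ U)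
    (e : Γ(Y, U) →+* L) (inj : Function.Injective e) (hs : ∀ z : L, ∃ p q, z = e p / e q) :
    ∃ φ : Y.functionField ≃+* L, ∀ a, val φ U h a = e a := by
  have : Nonempty U := ⟨⟨_, h⟩⟩
  have := functionField_isFractionRing_of_isAffineOpen Y U hU
  let ψ : Y.functionField →+* L := IsFractionRing.lift inj
  have hψ : ∀ a, ψ (algebraMap Γ(Y, U) _ a) = e a := IsFractionRing.lift_algebraMap inj
  refine ⟨RingEquiv.ofBijective ψ ⟨ψ.injective, fun z => ?_⟩, hψ⟩
  obtain ⟨p, q, rfl⟩ := hs z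
  exact ⟨algebraMap Γ(Y, U) _ p / algebraMap Γ(Y, U) _ q, by rw [map_div₀, hψ, hψ]⟩

theorem isZero_of_cech [CharZero L] {A ι : Type} [CommRing A] [Finite ι] [Nonempty ι]
    (π : Y ⟶ Spec (.of A)) (φ : Y.functionField ≃+* L) {U : ι → Y.Opens}
    (cover : iSup U = ⊤) (aff : ∀ i, IsAffineOpen (U i)) (aff2 : ∀ i j, IsAffineOpen (U i ⊓ U j))
    (gen : ∀ i, genericPoint Y ∈ U i) (h1 : (embAdd φ).C1 U) :
    Limits.IsZero (higherDirectImage π 1) := by
  have := (TopCat.Sheaf.pullbackPushforwardAdjunction AddCommGrpCat.{0} π.base).isRightAdjoint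
  let : DivisibleBy L ℤ := divisibleByIntOfCharZero
  exact isZero_rightDerived_one _ (embAdd φ).se
    (injective_gsh (genericPoint Y) (AddCommGrpCat.of L)) (epi_push π φ cover aff aff2 gen h1)

end Field

variable {L ι : Type} {A : Type} [CommRing A] [Field L] [Algebra A L] {f : ι → L}
  (hf : ∀ i, f i ≠ 0)

/-- Functions on a standard chart. -/
noncomputable abbrev sec1 (i : ι) : Γ(Proj (grade A f), UU A f i) →+* L :=
  sec (ev_gen_ne hf i) (gen_mem A f i) one_pos

theorem mem_chart_sec (i : ι) (z : L) : z ∈ chart A f i ↔ ∃ s, sec1 (A := A) hf i s = z := by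
  rw [mem_chart_iff (ev_gen_ne hf i)]
  constructor
  · rintro ⟨w, rfl⟩
    exact ⟨_, sec_away _ _ _ w⟩
  · rintro ⟨s, rfl⟩
    obtain ⟨w, rfl⟩ := away_surj (gen_mem A f i) one_pos s
    exact ⟨w, (sec_away _ _ _ w).symm⟩

theorem exists_phi_blow [IsFractionRing A L] [Nonempty ι] [IsIntegral (Proj (grade A f))]
    (gen : ∀ i, genericPoint (Proj (grade A f)) ∈ UU A f i) :
    ∃ φ : (Proj (grade A f)).functionField ≃+* L,
      (∀ i s, val φ (UU A f i) (gen i) s = sec1 hf i s) ∧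
      ∀ i j s, ∃ a ∈ chart A f i, ∃ b ∈ chart A f j,
        val φ (UU A f i ⊓ UU A f j) ⟨gen i, gen j⟩ s = a * b := by
  obtain ⟨o⟩ := ‹Nonempty ι›
  obtain ⟨φ, hφ⟩ := exists_equiv_val (aff_UU o) (gen o) (sec1 (A := A) hf o) (sec_inj _ _ _)
    fun z => by
      obtain ⟨p, q, -, rfl⟩ := IsFractionRing.div_surjective (A := A) z
      exact ⟨cst (blow A f) _ p, cst (blow A f) _ q, by rw [sec_cst, sec_cst]⟩
  have h2 : ∀ i j, (∀ s, val φ (UU A f i) (gen i) s = sec1 hf i s) → ∀ h s,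
      sec (ev_mul_ne hf i j) (gen_mul_mem i j) two_pos s = val φ _ h s := fun i j hi h s =>
    eq_val_of_le φ ((inf_UU i j).ge.trans inf_le_left) (aff_UU i) h _
      (fun a => (sec_res _ _ _ (gen_mem A f j) rfl _ _ _ _ a).trans (hi a).symm) s
  have h1 : ∀ i s, val φ (UU A f i) (gen i) s = sec1 hf i s := fun i s => by
    have h : genericPoint (Proj (grade A f)) ∈ Proj.basicOpen _ (Sc.gen A f o * Sc.gen A f i) :=
      (inf_UU o i).le ⟨gen o, gen i⟩
    rw [← val_res φ ((inf_UU o i).ge.trans inf_le_right) h, ← h2 o i hφ h]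
    exact sec_res _ _ _ (gen_mem A f o) (mul_comm _ _) _ _ _ _ s
  refine ⟨φ, h1, fun i j s => ?_⟩
  have h : genericPoint (Proj (grade A f)) ∈ Proj.basicOpen _ (Sc.gen A f i * Sc.gen A f j) :=
    (inf_UU i j).le ⟨gen i, gen j⟩
  obtain ⟨w, hw⟩ := away_surj (gen_mul_mem i j) two_pos (rres (inf_UU i j).ge s)
  rw [← val_res φ (inf_UU i j).ge h, ← h2 i j (h1 i) h, ← hw, sec_away]
  exact exists_mul_of_overlap _ w

theorem chart_denominator {a : ι → A} (ha : ∀ i, algebraMap A L (a i) = f i) (hf : ∀ i, f i ≠ 0)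
    (i : ι) {z : L} (hz : z ∈ chart A f i) :
    ∃ (n : ℕ) (b : A), algebraMap A L (a i) ^ n * z = algebraMap A L b := by
  induction hz using Algebra.adjoin_induction with
  | mem x hx =>
    obtain ⟨j, rfl⟩ := hx
    exact ⟨1, a j, by rw [ha, ha, pow_one, mul_div_cancel₀ _ (hf i)]⟩
  | algebraMap c => exact ⟨0, c, by rw [pow_zero, one_mul]⟩
  | add x y _ _ hx hy =>
    obtain ⟨n, b, e⟩ := hx
    obtain ⟨m, c, e'⟩ := hy
    refine ⟨n + m, a i ^ m * b + a i ^ n * c, ?_⟩
    rw [map_add, map_mul, map_mul, map_pow, map_pow, ← e, ← e']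
    ring
  | mul x y _ _ hx hy =>
    obtain ⟨n, b, e⟩ := hx
    obtain ⟨m, c, e'⟩ := hy
    refine ⟨n + m, b * c, ?_⟩
    rw [map_mul, ← e, ← e']
    ring

theorem mem_blowupChart [Algebra ℂ A] [Algebra ℂ L] [IsScalarTower ℂ A L] (a : ι → A) (i : ι)
    (z : L) : z ∈ blowupChart A L a i ↔ z ∈ chart A (fun j => algebraMap A L (a j)) i := by
  constructor
  · intro hz
    refine (Algebra.adjoin_le (S := (chart A (fun j => algebraMap A L (a j)) i).restrictScalars ℂ)
      ?_) hz
    rintro x (⟨c, rfl⟩ | ⟨j, rfl⟩)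
    · exact Subalgebra.algebraMap_mem (chart A (fun j => algebraMap A L (a j)) i) c
    · exact Algebra.subset_adjoin (R := A) ⟨j, rfl⟩
  · intro hz
    induction hz using Algebra.adjoin_induction with
    | mem x hx => exact Algebra.subset_adjoin (Or.inr hx)
    | algebraMap c => exact Algebra.subset_adjoin (Or.inl ⟨c, rfl⟩)
    | add x y _ _ hx hy => exact add_mem hx hy
    | mul x y _ _ hx hy => exact mul_mem hx hy

theorem isRational_of {A : Type} [CommRing A] [Algebra ℂ A] (h : HasRationalResolution A) :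
    IsRational A := by
  obtain ⟨L, _, _, _, _, _, ι, _, _, a, h0, hs, hc⟩ := h
  have inj := IsFractionRing.injective A L
  let f : ι → L := fun j => algebraMap A L (a j)
  have hf : ∀ i, f i ≠ 0 := fun i e => h0 i (inj (e.trans (map_zero _).symm))
  have hI := integral_blow (A := A) hf
  have gen : ∀ i, genericPoint (Proj (grade A f)) ∈ UU A f i := fun i =>
    @gen_mem' _ _ _ (nonempty_basic (ev_gen_ne hf i) (gen_mem A f i) one_pos)
  obtain ⟨φ, h1, h2⟩ := exists_phi_blow (A := A) hf gen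
  have : CharZero L := charZero_of_injective_algebraMap (algebraMap ℂ L).injective
  refine ⟨_, blow A f, ⟨proper_blow, hI, ?_, ?_⟩, ?_⟩
  · refine smooth_of_charts _ cover_UU aff_UU fun i => ?_
    let e : Γ(Proj (grade A f), UU A f i) ≃+* blowupChart A L a i :=
      RingEquiv.ofBijective ((sec1 hf i).codRestrict _ fun s =>
        (mem_blowupChart a i _).2 ((mem_chart_sec hf i _).2 ⟨s, rfl⟩))
        ⟨fun _ _ h => sec_inj _ _ _ (congrArg Subtype.val h), fun z => by
          obtain ⟨s, hs⟩ := (mem_chart_sec hf i _).1 ((mem_blowupChart a i _).1 z.2)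
          exact ⟨s, Subtype.ext hs⟩⟩
    have e1 : (cst (blow A f) (UU A f i)).comp (algebraMap ℂ A) =
        e.symm.toRingHom.comp (algebraMap ℂ _) := RingHom.ext fun c =>
      e.eq_symm_apply.2 (Subtype.ext ((sec_cst _ _ _ _).trans
        (IsScalarTower.algebraMap_apply ℂ A L c).symm))
    rw [cst_comp, e1]
    exact (RingHom.smooth_algebraMap.2 (hs i)).comp (RingHom.Smooth.of_bijective e.symm.bijective)
  · obtain ⟨o⟩ := ‹Nonempty ι›
    have : IsDomain A := inj.isDomain _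
    refine ⟨dOpen (a o), ⟨(⊥ : PrimeSpectrum A), h0 o⟩, isIso_dOpen _ (aff_UU o) _
      (preimage_le hf (fun _ => rfl) o) (fun x y e => inj ?_) fun s => ?_⟩
    · rw [← sec_cst (ev_gen_ne hf o) (gen_mem A f o) one_pos,
        ← sec_cst (ev_gen_ne hf o) (gen_mem A f o) one_pos, e]
    · obtain ⟨n, b, e⟩ := chart_denominator (fun _ => rfl) hf o
        ((mem_chart_sec hf o _).2 ⟨s, rfl⟩)
      exact ⟨n, b, sec_inj (ev_gen_ne hf o) (gen_mem A f o) one_pos
        (by rw [map_mul, map_pow, sec_cst, sec_cst, e])⟩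
  · refine isZero_of_cech _ φ cover_UU aff_UU aff_inf_UU gen fun c hr hcc => ?_
    obtain ⟨b, hb, e⟩ := hc c (fun i j => by
      obtain ⟨s, hs⟩ := (reg_add φ (U := UU A f i ⊓ UU A f j) ⟨gen i, gen j⟩).1 (hr i j)
      obtain ⟨x, hx, y, hy, e⟩ := h2 i j s
      rw [← hs, e]
      exact mul_mem (Algebra.mem_sup_left ((mem_blowupChart a i x).2 hx))
        (Algebra.mem_sup_right ((mem_blowupChart a j y).2 hy))) fun i j k => by
          linear_combination hcc i j k
    refine ⟨fun i => -b i, fun i => (reg_add φ (gen i)).2 (neg_mem ?_), fun i j => by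
      rw [e]; ring⟩
    obtain ⟨s, hs⟩ := (mem_chart_sec hf i _).1 ((mem_blowupChart a i _).1 (hb i))
    exact ⟨s, (h1 i s).trans hs⟩

end Pool.Agent.Lib.MP_20b407_ag.Sc
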