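import Pool.Agent.Lib.MP_20b407_ag.Sc.Defs
import Pool.Agent.Lib.MP_dd9c4c_nt.Sc.Coh

/-! Functions coming from the base. -/

namespace Pool.Agent.Lib.MP_20b407_ag.Sc

open CategoryTheory AlgebraicGeometry
open Pool.Agent.Lib.MP_cd184e_ag.B (rres rres_rres)

variable {A : Type} [CommRing A] {Y : Scheme.{0}} (π : Y ⟶ Spec (.of A))

/-- An element of the base ring as a function on an open set. -/
noncomputable def cst (V : Y.Opens) : A →+* Γ(Y, V) :=
  (rres le_top).comp (π.appTop.hom.comp (Scheme.ΓSpecIso (.of A)).inv.hom)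

theorem rres_cst {V W : Y.Opens} (h : V ≤ W) (a : A) : rres h (cst π W a) = cst π V a :=
  rres_rres _ _ _

/-- The basic open set `D(a)` of `Spec A`. -/
def dOpen (a : A) : (Spec (.of A)).Opens := PrimeSpectrum.basicOpen a

theorem basicOpen_cst (V : Y.Opens) (a : A) :
    Y.basicOpen (cst π V a) = V ⊓ π ⁻¹ᵁ dOpen a := by
  have h : π ⁻¹ᵁ dOpen a = Y.basicOpen (π.appTop ((Scheme.ΓSpecIso (.of A)).inv a)) := by
    rw [← Scheme.Hom.preimage_basicOpen_top, basicOpen_eq_of_affine]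
    rfl
  rw [h]
  exact Y.basicOpen_res _ _

end Pool.Agent.Lib.MP_20b407_ag.Sc
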