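import Pool.Agent.Lib.MP_20b407_ag.Defs

/-!
Rational singularities in the language of schemes.
-/

namespace Pool.Agent.Lib.MP_20b407_ag.Sc

open CategoryTheory AlgebraicGeometry

/-- The sheaf of functions of a scheme as a sheaf of abelian groups. -/
noncomputable def addSheaf (Y : Scheme.{0}) : TopCat.Sheaf AddCommGrpCat.{0} Y :=
  (sheafCompose _ (forget₂ CommRingCat RingCat ⋙ forget₂ RingCat AddCommGrpCat)).obj Y.sheaf

instance additive_pushforward {X Y : TopCat.{0}} (f : X ⟶ Y) :
    (TopCat.Sheaf.pushforward AddCommGrpCat.{0} f).Additive := ⟨rfl⟩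

/-- The higher direct image `Rⁿ π_* O_Y`: the right derived functors of the direct image of sheaves
of abelian groups, evaluated on the sheaf of functions. -/
noncomputable def higherDirectImage {Y X : Scheme.{0}} (π : Y ⟶ X) (n : ℕ) :
    TopCat.Sheaf AddCommGrpCat.{0} X :=
  ((TopCat.Sheaf.pushforward AddCommGrpCat.{0} π.base).rightDerived n).obj (addSheaf Y)

/-- `π : Y ⟶ X` is a resolution of singularities of the scheme `g : X ⟶ Spec ℂ`: it is proper, `Y`
is integral and smooth over `ℂ`, and `π` is an isomorphism over a nonempty open set. -/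
def IsResolution {Y X : Scheme.{0}} (g : X ⟶ Spec (.of ℂ)) (π : Y ⟶ X) : Prop :=
  IsProper π ∧ IsIntegral Y ∧ Smooth (π ≫ g) ∧
    ∃ U : X.Opens, (U : Set X).Nonempty ∧ IsIso (π ∣_ U)

/-- `Spec A` has a resolution `π : Y ⟶ Spec A` with `R¹ π_* O_Y = 0`. -/
def IsRational (A : Type) [CommRing A] [Algebra ℂ A] : Prop :=
  ∃ (Y : Scheme.{0}) (π : Y ⟶ Spec (.of A)),
    IsResolution (Spec.map (CommRingCat.ofHom (algebraMap ℂ A))) π ∧
      Limits.IsZero (higherDirectImage π 1)

end Pool.Agent.Lib.MP_20b407_ag.Sc
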