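import Pool.Agent.Lib.MP_20b407_ag.Sc.Ring
import Pool.Agent.Lib.MP_20b407_ag.Sc.Cst

/-! The blow-up as a scheme, with its charts inside the function field. -/

namespace Pool.Agent.Lib.MP_20b407_ag.Sc

open CategoryTheory AlgebraicGeometry Opposite TopologicalSpace HomogeneousLocalization
open Pool.Agent.Lib.MP_cd184e_ag.B (rres rres_rres)
open Pool.Agent.Lib.MP_dd9c4c_nt.Sc (val val_res val_inj gen_mem')

variable {L ι : Type} {A : Type} [CommRing A] [Field L] [Algebra A L] {f : ι → L}

section Sec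

variable {g : hring A f} (h0 : ev A f g ≠ 0) {m : ℕ} (hg : g ∈ grade A f m) (hm : 0 < m)

/-- Functions on a basic open set as elements of the field. -/
noncomputable def sec : Γ(Proj (grade A f), Proj.basicOpen (grade A f) g) →+* L :=
  (toL h0).comp (Proj.basicOpenIsoAway (grade A f) g hg hm).inv.hom

theorem sec_away (z : Away (grade A f) g) :
    sec h0 hg hm (Proj.awayToSection (grade A f) g z) = toL h0 z :=
  congrArg (toL h0)
    ((Proj.basicOpenIsoAway (grade A f) g hg hm).commRingCatIsoToRingEquiv.symm_apply_apply z)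

include hg hm in
theorem away_surj (a : Γ(Proj (grade A f), Proj.basicOpen (grade A f) g)) :
    ∃ z, Proj.awayToSection (grade A f) g z = a :=
  (Proj.basicOpenIsoAway (grade A f) g hg hm).commRingCatIsoToRingEquiv.surjective a

theorem sec_inj : Function.Injective (sec h0 hg hm) :=
  (toL_injective h0 hg).comp
    (Proj.basicOpenIsoAway (grade A f) g hg hm).commRingCatIsoToRingEquiv.symm.injective

theorem sec_res {g' x : hring A f} {m' k : ℕ} (hg' : g' ∈ grade A f m') (hx : x = g * g')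
    (h1 : ev A f x ≠ 0) (hk : x ∈ grade A f k) (hk' : 0 < k)
    (i : Proj.basicOpen (grade A f) x ≤ Proj.basicOpen (grade A f) g)
    (a : Γ(Proj (grade A f), Proj.basicOpen (grade A f) g)) :
    sec h1 hk hk' (rres i a) = sec h0 hg hm a := by
  obtain ⟨z, rfl⟩ := away_surj hg hm a
  have e := Proj.awayMap_awayToSection (grade A f) hg' hx
  have e' : rres i (Proj.awayToSection (grade A f) g z) =
      Proj.awayToSection (grade A f) x (awayMap (grade A f) hg' hx z) := congr($e z).symm
  rw [e', sec_away, sec_away, toL_awayMap h0 hg]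

include h0 hg hm in
theorem integral_basic : IsIntegral (Proj.basicOpen (grade A f) g).toScheme :=
  have : IsDomain Γ(Proj (grade A f), Proj.basicOpen (grade A f) g) :=
    (sec_inj h0 hg hm).isDomain _
  IsIntegral.of_isIso (Proj.isAffineOpen_basicOpen _ _ hg hm).isoSpec.inv

include h0 hg hm in
theorem nonempty_basic : Nonempty (Proj.basicOpen (grade A f) g) := by
  have := integral_basic h0 hg hm
  exact (inferInstance : Nonempty (Proj.basicOpen (grade A f) g).toScheme)

end Sec

section Generic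

variable {S : Type} [CommRing S] [Algebra A S] (𝒜 : ℕ → Submodule A S) [GradedAlgebra 𝒜]

/-- The morphism from `Proj` to the spectrum of the base ring. -/
noncomputable def toBase : Proj 𝒜 ⟶ Spec (.of A) :=
  Proj.toSpecZero 𝒜 ≫ Spec.map (CommRingCat.ofHom (algebraMap A (𝒜 0)))

theorem awayι_toBase {g : S} {m : ℕ} (hg : g ∈ 𝒜 m) (hm : 0 < m) :
    Proj.awayι 𝒜 g hg hm ≫ toBase 𝒜 =
      Spec.map (CommRingCat.ofHom ((fromZeroRingHom 𝒜 _).comp (algebraMap A (𝒜 0)))) := by
  rw [toBase, Proj.awayι_toSpecZero_assoc, ← Spec.map_comp]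
  rfl

theorem cst_away {g : S} {m : ℕ} (hg : g ∈ 𝒜 m) (hm : 0 < m) (c : A) :
    cst (toBase 𝒜) (Proj.basicOpen 𝒜 g) c =
      Proj.awayToSection 𝒜 g (fromZeroRingHom 𝒜 _ (algebraMap A (𝒜 0) c)) := by
  have h1 : (Proj.basicOpen 𝒜 g).ι ≫ toBase 𝒜 = Proj.basicOpenToSpec 𝒜 g ≫
      Spec.map (CommRingCat.ofHom (fromZeroRingHom 𝒜 _)) ≫
        Spec.map (CommRingCat.ofHom (algebraMap A (𝒜 0))) := by
    rw [← Proj.awayι_toSpecZero_assoc 𝒜 g hg hm, ← Proj.basicOpenIsoSpec_inv_ι_assoc,
      ← Proj.basicOpenIsoSpec_hom 𝒜 g hg hm, Iso.hom_inv_id_assoc, toBase]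
  have h2 := congrArg (fun φ => (Scheme.ΓSpecIso (.of A)).inv ≫ Scheme.Hom.appTop φ ≫
    (Proj.basicOpen 𝒜 g).topIso.hom) h1
  have h3 : (Proj.basicOpenToSpec 𝒜 g).appTop = _ := Proj.basicOpenToSpec_app_top 𝒜 g
  simp only [Scheme.Hom.comp_appTop, h3, Category.assoc, Iso.inv_hom_id, Category.comp_id,
    Scheme.ΓSpecIso_naturality_assoc, Iso.inv_hom_id_assoc] at h2
  refine Eq.trans ?_ congr($h2 c)
  exact (rres_rres (le_top : (Proj.basicOpen 𝒜 g).ι ''ᵁ ⊤ ≤ ⊤)
    (Proj.basicOpen 𝒜 g).ι_image_top.ge _).symm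

theorem proper_toBase [Algebra.FiniteType A S] (h : Function.Surjective (algebraMap A (𝒜 0))) :
    IsProper (toBase 𝒜) := by
  have h0 : IsScalarTower A (𝒜 0) S := ⟨fun a b c => smul_mul_assoc a b.1 c⟩
  have h2 : Algebra.FiniteType (𝒜 0) S := Algebra.FiniteType.of_restrictScalars_finiteType A _ _
  have h3 : IsClosedImmersion (Spec.map (CommRingCat.ofHom (algebraMap A (𝒜 0)))) :=
    IsClosedImmersion.spec_of_surjective _ h
  unfold toBase
  infer_instance

end Generic

variable (A f) in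
/-- The blow-up morphism. -/
noncomputable abbrev blow : Proj (grade A f) ⟶ Spec (.of A) := toBase (grade A f)

theorem sec_cst {g : hring A f} (h0 : ev A f g ≠ 0) {m : ℕ} (hg : g ∈ grade A f m) (hm : 0 < m)
    (c : A) : sec h0 hg hm (cst (blow A f) _ c) = algebraMap A L c := by
  rw [cst_away _ hg hm, sec_away, toL_const h0 hg]

theorem proper_blow [Finite ι] : IsProper (blow A f) := by
  have h1 : Algebra.FiniteType A (hring A f) := ⟨(Subalgebra.fg_def.2
    ⟨_, Set.finite_range _, adjoin_gen A f⟩)⟩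
  exact proper_toBase _ (surj_zero A f)

variable (A f) in
/-- The standard charts. -/
noncomputable abbrev UU (i : ι) : (Proj (grade A f)).Opens := Proj.basicOpen _ (gen A f i)

theorem cover_UU : iSup (UU A f) = ⊤ := by
  refine Proj.iSup_basicOpen_eq_top' _ _ (fun l => ⟨1, gen_mem A f l⟩) ?_
  rw [eq_top_iff]
  intro p _
  have hp : p ∈ Algebra.adjoin A (Set.range (gen A f)) := adjoin_gen A f ▸ Algebra.mem_top
  induction hp using Algebra.adjoin_induction with
  | mem y hy => exact Algebra.subset_adjoin hy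
  | algebraMap c => exact Subalgebra.algebraMap_mem _ (algebraMap A (grade A f 0) c)
  | add y z _ _ hy hz => exact add_mem (hy trivial) (hz trivial)
  | mul y z _ _ hy hz => exact mul_mem (hy trivial) (hz trivial)

theorem aff_UU (i : ι) : IsAffineOpen (UU A f i) :=
  Proj.isAffineOpen_basicOpen _ _ (gen_mem A f i) one_pos

theorem gen_mul_mem (i j : ι) : gen A f i * gen A f j ∈ grade A f (1 + 1) :=
  SetLike.mul_mem_graded (gen_mem A f i) (gen_mem A f j)

theorem inf_UU (i j : ι) : UU A f i ⊓ UU A f j = Proj.basicOpen _ (gen A f i * gen A f j) :=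
  (Proj.basicOpen_mul _ _ _).symm

theorem aff_inf_UU (i j : ι) : IsAffineOpen (UU A f i ⊓ UU A f j) :=
  inf_UU (A := A) (f := f) i j ▸ Proj.isAffineOpen_basicOpen _ _ (gen_mul_mem i j) two_pos

variable (hf : ∀ i, f i ≠ 0)
include hf

theorem ev_gen_ne (i : ι) : ev A f (gen A f i) ≠ 0 := by
  rw [ev_gen]
  exact hf i

theorem ev_mul_ne (i j : ι) : ev A f (gen A f i * gen A f j) ≠ 0 := by
  rw [map_mul]
  exact mul_ne_zero (ev_gen_ne hf i) (ev_gen_ne hf j)

theorem integral_blow [Nonempty ι] : IsIntegral (Proj (grade A f)) := by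
  have hI := fun i => integral_basic (ev_gen_ne (A := A) hf i) (gen_mem A f i) one_pos
  have h1 : ∀ i, IsReduced (((Proj (grade A f)).openCoverOfIsOpenCover _ cover_UU).X i) :=
    fun i => have := hI i; inferInstanceAs (IsReduced (UU A f i).toScheme)
  have := IsReduced.of_openCover _ ((Proj (grade A f)).openCoverOfIsOpenCover _ cover_UU)
  have : PreirreducibleSpace (Proj (grade A f)) := by
    refine PreirreducibleSpace.of_isOpenCover (U := UU A f) (fun s t _ hd => ?_) cover_UU
      fun s => ?_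
    · obtain ⟨x, hx⟩ := nonempty_basic (ev_mul_ne (A := A) hf s t) (gen_mul_mem s t) two_pos
      exact hd ((inf_UU s t).ge.trans inf_le_left) ((inf_UU s t).ge.trans inf_le_right) hx
    · have := hI s
      exact inferInstanceAs (PreirreducibleSpace (UU A f s).toScheme)
  obtain ⟨j⟩ := ‹Nonempty ι›
  obtain ⟨x, -⟩ := nonempty_basic (ev_gen_ne (A := A) hf j) (gen_mem A f j) one_pos
  have : IrreducibleSpace (Proj (grade A f)) := { toNonempty := ⟨x⟩ }
  exact isIntegral_of_irreducibleSpace_of_isReduced _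

theorem preimage_le {a : ι → A} (ha : ∀ i, algebraMap A L (a i) = f i) (i : ι) :
    blow A f ⁻¹ᵁ dOpen (a i) ≤ UU A f i := by
  intro x hx
  obtain ⟨j, hj⟩ := Opens.mem_iSup.1 ((cover_UU (A := A) (f := f)).ge (Set.mem_univ x))
  have hr := Proj.opensRange_awayι (grade A f) _ (gen_mem A f j) one_pos
  obtain ⟨y, rfl⟩ : x ∈ (Proj.awayι (grade A f) _ (gen_mem A f j) one_pos).opensRange := hr ▸ hj
  have h1 := Proj.awayι_preimage_basicOpen (grade A f) (gen_mem A f j) one_pos (gen_mem A f i)
    one_pos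
  have h2 : y ∈ (Proj.awayι (grade A f) _ (gen_mem A f j) one_pos ≫ blow A f) ⁻¹ᵁ dOpen (a i) := hx
  rw [awayι_toBase] at h2
  have h3 : fromZeroRingHom (grade A f) _ (algebraMap A (grade A f 0) (a i)) ∉ y.asIdeal := h2
  have h4 : fromZeroRingHom (grade A f) _ (algebraMap A (grade A f 0) (a i)) =
      Away.isLocalizationElem (gen_mem A f j) (gen_mem A f i) *
        fromZeroRingHom (grade A f) _ (algebraMap A (grade A f 0) (a j)) := by
    apply toL_injective (ev_gen_ne hf j) (gen_mem A f j)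
    rw [map_mul, toL_const _ (gen_mem A f j), toL_const _ (gen_mem A f j), ha, ha,
      Away.isLocalizationElem, toL_mk, pow_one, pow_one, ev_gen, ev_gen, div_mul_cancel₀ _ (hf j)]
  have h5 : y ∈ Proj.awayι (grade A f) _ (gen_mem A f j) one_pos ⁻¹ᵁ UU A f i := by
    rw [UU, h1]
    exact fun h => h3 (h4 ▸ Ideal.mul_mem_right _ _ h)
  exact h5

end Pool.Agent.Lib.MP_20b407_ag.Sc
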