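import Mathlib

/-! The graded ring of a blow-up, inside the polynomial ring over the function field. -/

namespace Pool.Agent.Lib.MP_20b407_ag.Sc

open Polynomial HomogeneousLocalization

variable {L ι : Type} (A : Type) [CommRing A] [Field L] [Algebra A L] (f : ι → L)

/-- The module spanned by the generators. -/
def lin : Submodule A L := Submodule.span A (Set.range f)

/-- The Rees algebra, inside `L[t]`. -/
def hring : Subalgebra A L[X] where
  carrier := {p | ∀ m, p.coeff m ∈ lin A f ^ m}
  mul_mem' {p q} hp hq m := by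
    rw [coeff_mul]
    refine Submodule.sum_mem _ fun c hc => ?_
    rw [← Finset.HasAntidiagonal.mem_antidiagonal.1 hc, pow_add]
    exact Submodule.mul_mem_mul (hp _) (hq _)
  add_mem' {p q} hp hq m := by
    rw [coeff_add]
    exact add_mem (hp m) (hq m)
  algebraMap_mem' c m := by
    rw [Polynomial.algebraMap_apply, coeff_C]
    split_ifs with h
    · subst h
      rw [pow_zero]
      exact Submodule.algebraMap_mem c
    · exact zero_mem _

/-- The grading. -/
def grade (m : ℕ) : Submodule A (hring A f) where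
  carrier := {p | ∀ i, i ≠ m → p.1.coeff i = 0}
  add_mem' {p q} hp hq i hi := by
    rw [Subalgebra.coe_add, coeff_add, hp i hi, hq i hi, add_zero]
  zero_mem' i _ := rfl
  smul_mem' c p hp i hi := by
    rw [Subalgebra.coe_smul, coeff_smul, hp i hi, smul_zero]

variable {A f}

/-- The homogeneous element `c t ^ m`. -/
noncomputable def mono (m : ℕ) (c : L) (hc : c ∈ lin A f ^ m) : hring A f :=
  ⟨monomial m c, fun i => by
    rw [coeff_monomial]
    split_ifs with h
    · exact h ▸ hc
    · exact zero_mem _⟩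

theorem mono_mem (m : ℕ) (c : L) (hc : c ∈ lin A f ^ m) : mono m c hc ∈ grade A f m :=
  fun _ hi => coeff_monomial_of_ne _ hi

theorem eq_mono {m : ℕ} {p : hring A f} (hp : p ∈ grade A f m) :
    p.1 = monomial m (p.1.coeff m) := by
  ext i
  rw [coeff_monomial]
  split_ifs with h
  · rw [h]
  · exact hp i (Ne.symm h)

theorem sum_mono (p : hring A f) : ∑ m ∈ p.1.support, mono m (p.1.coeff m) (p.2 m) = p := by
  apply Subtype.ext
  rw [AddSubmonoidClass.coe_finsetSum]
  exact p.1.as_sum_support.symm

variable (A f)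

instance gradedMonoid : SetLike.GradedMonoid (grade A f) where
  one_mem i hi := by
    rw [Subalgebra.coe_one, coeff_one, if_neg hi]
  mul_mem {i j p q} hp hq l hl := by
    rw [Subalgebra.coe_mul, eq_mono hp, eq_mono hq, monomial_mul_monomial,
      coeff_monomial_of_ne _ hl]

theorem coeff_sum_grade (x : DirectSum ℕ fun m => grade A f m) (i : ℕ) :
    (DirectSum.coeAddMonoidHom (grade A f) x).1.coeff i = (x i).1.1.coeff i := by
  induction x using DirectSum.induction_on with
  | zero => rw [AddMonoidHom.map_zero]; rfl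
  | of j y =>
    rw [DirectSum.coeAddMonoidHom_of]
    by_cases h : i = j
    · subst h
      rw [DirectSum.of_eq_same]
    · rw [DirectSum.of_eq_of_ne _ _ _ h, y.2 i h]
      rfl
  | add x y hx hy =>
    rw [map_add, Subalgebra.coe_add, coeff_add, hx, hy]
    simp

theorem isInternal_grade : DirectSum.IsInternal (grade A f) := by
  constructor
  · intro x y h
    refine DFinsupp.ext fun i => Subtype.ext (Subtype.ext ?_)
    rw [eq_mono (x i).2, eq_mono (y i).2, ← coeff_sum_grade, ← coeff_sum_grade, h]
  · intro p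
    rw [← sum_mono p]
    refine ⟨∑ m ∈ p.1.support, DirectSum.of (fun m => grade A f m) m ⟨_, mono_mem m _ (p.2 m)⟩, ?_⟩
    rw [map_sum]
    simp only [DirectSum.coeAddMonoidHom_of]

noncomputable instance gradedAlgebra : GradedAlgebra (grade A f) :=
  { gradedMonoid A f, (isInternal_grade A f).chooseDecomposition with }

theorem f_mem (l : ι) : f l ∈ lin A f ^ 1 := by
  rw [pow_one]
  exact Submodule.subset_span ⟨l, rfl⟩

/-- The generators of degree one. -/
noncomputable def gen (l : ι) : hring A f := mono 1 (f l) (f_mem A f l)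

theorem gen_mem (l : ι) : gen A f l ∈ grade A f 1 := mono_mem _ _ _

theorem mono_one_mem {P : Submodule A (hring A f)} (h : ∀ l, gen A f l ∈ P)
    {c : L} (hc : c ∈ lin A f) : ∃ p ∈ P, p.1 = monomial 1 c := by
  induction hc using Submodule.span_induction with
  | mem x hx =>
    obtain ⟨l, rfl⟩ := hx
    exact ⟨_, h l, rfl⟩
  | zero => exact ⟨0, zero_mem _, by simp⟩
  | add x y _ _ hx hy =>
    obtain ⟨p, hp, e⟩ := hx
    obtain ⟨q, hq, e'⟩ := hy
    exact ⟨p + q, add_mem hp hq, by rw [Subalgebra.coe_add, e, e', map_add]⟩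
  | smul a x _ hx =>
    obtain ⟨p, hp, e⟩ := hx
    exact ⟨a • p, P.smul_mem a hp, by rw [Subalgebra.coe_smul, e, smul_monomial]⟩

theorem adjoin_gen : Algebra.adjoin A (Set.range (gen A f)) = ⊤ := by
  have key : ∀ (m : ℕ) (c : L), c ∈ lin A f ^ m →
      ∃ p ∈ Algebra.adjoin A (Set.range (gen A f)), p.1 = monomial m c := by
    intro m
    induction m with
    | zero =>
      intro c hc
      rw [pow_zero, Submodule.mem_one] at hc
      obtain ⟨a, rfl⟩ := hc
      exact ⟨algebraMap A _ a, Subalgebra.algebraMap_mem _ a, rfl⟩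
    | succ m ih =>
      intro c hc
      rw [pow_succ] at hc
      refine Submodule.mul_induction_on hc (fun x hx y hy => ?_) fun x y hx hy => ?_
      · obtain ⟨p, hp, e⟩ := ih x hx
        obtain ⟨q, hq, e'⟩ := mono_one_mem A f
          (P := (Algebra.adjoin A (Set.range (gen A f))).toSubmodule)
          (fun l => Algebra.subset_adjoin ⟨l, rfl⟩) hy
        exact ⟨p * q, mul_mem hp hq, by rw [Subalgebra.coe_mul, e, e', monomial_mul_monomial]⟩
      · obtain ⟨p, hp, e⟩ := hx
        obtain ⟨q, hq, e'⟩ := hy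
        exact ⟨p + q, add_mem hp hq, by rw [Subalgebra.coe_add, e, e', map_add]⟩
  rw [eq_top_iff]
  intro p _
  rw [← sum_mono p]
  refine Subalgebra.sum_mem _ fun m _ => ?_
  obtain ⟨q, hq, e⟩ := key m _ (p.2 m)
  have : mono m _ (p.2 m) = q := Subtype.ext e.symm
  rwa [this]

theorem surj_zero : Function.Surjective (algebraMap A (grade A f 0)) := fun p => by
  have h := p.1.2 0
  rw [pow_zero, Submodule.mem_one] at h
  obtain ⟨a, ha⟩ := h
  refine ⟨a, Subtype.ext (Subtype.ext ?_)⟩
  rw [eq_mono p.2, ← ha]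
  rfl

/-- Dehomogenisation. -/
noncomputable def ev : hring A f →+* L := (evalRingHom 1).comp (hring A f).val.toRingHom

variable {A f}

theorem ev_eq {m : ℕ} {p : hring A f} (hp : p ∈ grade A f m) : ev A f p = p.1.coeff m := by
  change eval 1 p.1 = _
  conv_lhs => rw [eq_mono hp]
  simp

theorem ev_mem {m : ℕ} {p : hring A f} (hp : p ∈ grade A f m) : ev A f p ∈ lin A f ^ m :=
  ev_eq hp ▸ p.2 m

theorem eq_zero_of_ev {m : ℕ} {p : hring A f} (hp : p ∈ grade A f m) (h : ev A f p = 0) : p = 0 :=
  Subtype.ext (by rw [eq_mono hp, ← ev_eq hp, h]; simp)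

theorem ev_gen (l : ι) : ev A f (gen A f l) = f l := by
  rw [ev_eq (gen_mem A f l)]
  exact coeff_monomial_same _ _

theorem ev_algebraMap (c : A) : ev A f (algebraMap A _ c) = algebraMap A L c := by
  change eval 1 (algebraMap A L[X] c) = _
  simp

section Away

variable {g : hring A f} (h0 : ev A f g ≠ 0)

/-- Fractions of degree zero as elements of the field. -/
noncomputable def toL : Away (grade A f) g →+* L :=
  (IsLocalization.Away.lift (S := Localization.Away g) g (g := ev A f) h0.isUnit).comp
    (algebraMap _ _)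

variable {m : ℕ} (hg : g ∈ grade A f m)

theorem toL_mk (n : ℕ) (a : hring A f) (ha : a ∈ grade A f (n • m)) :
    toL h0 (Away.mk _ hg n a ha) = ev A f a / ev A f g ^ n := by
  rw [toL, RingHom.comp_apply,
    HomogeneousLocalization.algebraMap_apply, Away.val_mk, Localization.mk_eq_mk',
    IsLocalization.Away.lift, IsLocalization.lift_mk'_spec, map_pow,
    mul_div_cancel₀ _ (pow_ne_zero _ h0)]

include hg in
theorem toL_injective : Function.Injective (toL h0) := by
  rw [injective_iff_map_eq_zero]
  intro z hz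
  obtain ⟨n, a, ha, rfl⟩ := Away.mk_surjective _ hg z
  rw [toL_mk, div_eq_zero_iff, or_iff_left (pow_ne_zero _ h0)] at hz
  exact mk_eq_zero_of_num _ (Subtype.ext (eq_zero_of_ev ha hz))

include hg in
theorem toL_const (c : A) :
    toL h0 (fromZeroRingHom (grade A f) _ (algebraMap A (grade A f 0) c)) = algebraMap A L c := by
  have : fromZeroRingHom (grade A f) _ (algebraMap A (grade A f 0) c) =
      Away.mk _ hg 0 (algebraMap A _ c)
        (by rw [zero_smul]; exact (algebraMap A (grade A f 0) c).2) := by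
    ext
    simp [fromZeroRingHom]
  rw [this, toL_mk, pow_zero, div_one, ev_algebraMap]

include hg in
theorem toL_awayMap {g' x : hring A f} {m' : ℕ} (hg' : g' ∈ grade A f m') (hx : x = g * g')
    (h1 : ev A f x ≠ 0) (z : Away (grade A f) g) :
    toL h1 (awayMap (grade A f) hg' hx z) = toL h0 z := by
  obtain ⟨n, a, ha, rfl⟩ := Away.mk_surjective _ hg z
  subst hx
  have h2 : ev A f g' ≠ 0 := fun h => h1 (by rw [map_mul, h, mul_zero])
  have e : awayMap (grade A f) hg' rfl (Away.mk _ hg n a ha) =
      Away.mk _ (SetLike.mul_mem_graded hg hg') n (a * g' ^ n) (by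
        rw [smul_add]
        exact SetLike.mul_mem_graded ha (SetLike.pow_mem_graded n hg')) := by
    ext
    rw [awayMap_mk]
  rw [e, toL_mk, toL_mk, map_mul, map_mul, map_pow, mul_pow]
  field_simp

end Away

variable (A f) in
/-- The ring of a chart. -/
def chart (i : ι) : Subalgebra A L := Algebra.adjoin A (Set.range fun j => f j / f i)

theorem div_pow_mem_chart (i : ι) (m : ℕ) (c : L) (hc : c ∈ lin A f ^ m) :
    c / f i ^ m ∈ chart A f i := by
  induction m generalizing c with
  | zero =>
    rw [pow_zero, Submodule.mem_one] at hc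
    obtain ⟨a, rfl⟩ := hc
    rw [pow_zero, div_one]
    exact Subalgebra.algebraMap_mem _ a
  | succ m ih =>
    rw [pow_succ] at hc
    refine Submodule.mul_induction_on hc (fun x hx y hy => ?_) fun x y hx hy => ?_
    · rw [pow_succ, mul_div_mul_comm]
      refine mul_mem (ih x hx) ?_
      induction hy using Submodule.span_induction with
      | mem y hy =>
        obtain ⟨l, rfl⟩ := hy
        exact Algebra.subset_adjoin ⟨l, rfl⟩
      | zero => simp
      | add y z _ _ hy hz => rw [add_div]; exact add_mem hy hz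
      | smul a y _ hy => rw [smul_div_assoc]; exact Subalgebra.smul_mem _ hy a
    · rw [add_div]
      exact add_mem hx hy

theorem mem_chart_iff {i : ι} (h0 : ev A f (gen A f i) ≠ 0) (z : L) :
    z ∈ chart A f i ↔ ∃ w, toL h0 w = z := by
  constructor
  · intro hz
    induction hz using Algebra.adjoin_induction with
    | mem x hx =>
      obtain ⟨l, rfl⟩ := hx
      exact ⟨Away.mk _ (gen_mem A f i) 1 (gen A f l) (gen_mem A f l), by
        rw [toL_mk, ev_gen, ev_gen, pow_one]⟩
    | algebraMap c => exact ⟨_, toL_const h0 (gen_mem A f i) c⟩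
    | add x y _ _ hx hy =>
      obtain ⟨a, rfl⟩ := hx
      obtain ⟨b, rfl⟩ := hy
      exact ⟨a + b, map_add _ _ _⟩
    | mul x y _ _ hx hy =>
      obtain ⟨a, rfl⟩ := hx
      obtain ⟨b, rfl⟩ := hy
      exact ⟨a * b, map_mul _ _ _⟩
  · rintro ⟨z, rfl⟩
    obtain ⟨n, a, ha, rfl⟩ := Away.mk_surjective _ (gen_mem A f i) z
    have := ev_mem ha
    rw [smul_eq_mul, mul_one] at this
    rw [toL_mk, ev_gen]
    exact div_pow_mem_chart i n _ this

theorem exists_mul_of_overlap {i j : ι} (h0 : ev A f (gen A f i * gen A f j) ≠ 0)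
    (z : Away (grade A f) (gen A f i * gen A f j)) :
    ∃ a ∈ chart A f i, ∃ b ∈ chart A f j, toL h0 z = a * b := by
  obtain ⟨n, a, ha, rfl⟩ := Away.mk_surjective _
    (SetLike.mul_mem_graded (gen_mem A f i) (gen_mem A f j)) z
  have h3 : f i / f j ∈ chart A f j := Algebra.subset_adjoin ⟨i, rfl⟩
  refine ⟨_, div_pow_mem_chart i _ _ (ev_mem ha), (f i / f j) ^ n, pow_mem h3 _, ?_⟩
  rw [toL_mk]
  rw [map_mul, ev_gen, ev_gen, mul_ne_zero_iff] at h0
  have h1 := h0.1
  have h2 := h0.2
  rw [map_mul, ev_gen, ev_gen, smul_eq_mul, mul_add, mul_one, pow_add, mul_pow, div_pow]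
  field_simp

end Pool.Agent.Lib.MP_20b407_ag.Sc
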